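import Pool.Agent.KS6_94.PS.Main

/-!
# MP_94a925_gt: for which K-analytic spaces `C_p(X)` embeds in a pseudoradial space

For every K-analytic regular Hausdorff space `X` (for example `σ`-compact, Polish, analytic
metrizable or Lindelöf Čech-complete) the following are equivalent: `C_p(X)` embeds in a regular
Hausdorff pseudoradial space; `C_p(X)` is Fréchet-Urysohn; `X` does not map continuously onto
`[0,1]`; continuous real functions on `X` have countable range; all compact subspaces of `X` are
scattered. The first four conditions are equivalent for all `X` whose finite powers are Lindelöf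
and whose continuous images in `ℝ^ℕ` are analytic (for example also for Lindelöf `P`-spaces).

Idea: if a K-analytic space maps onto `[0,1]`, then the perfect set theorem for the graph of the
composite upper semicontinuous map on the Baire space gives a compact subset of `X` which maps onto
the Cantor set, and is not scattered; a compact space which is not scattered contains a compact set
that maps onto the Cantor set, and Tietze's theorem applies since `X` is normal. If `X` does not map
onto `[0,1]`, its images in countable powers of `ℝ` are countable, and `C_p(X)` is countably tight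
since the finite powers of `X` are Lindelöf; so it is Fréchet-Urysohn.
-/

set_option autoImplicit false

open Set Filter Topology MeasureTheory

namespace Pool.Agent.Results.MP_94a925_gt.KAnalyticSpaces

universe u w

/-- The transfinite sequence `(s α)_{α < κ}` converges to `x`: every neighbourhood of `x` contains
`s α` for all sufficiently large `α < κ`. -/
def TransConverges {Z : Type u} [TopologicalSpace Z] (κ : Ordinal.{u}) (s : Ordinal.{u} → Z)
    (x : Z) : Prop :=
  ∀ U ∈ 𝓝 x, ∃ β < κ, ∀ α, β ≤ α → α < κ → s α ∈ U

/-- `A` is radially closed: every point to which some transfinite sequence of points of `A`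
converges lies in `A`. -/
def RadiallyClosed {Z : Type u} [TopologicalSpace Z] (A : Set Z) : Prop :=
  ∀ (κ : Ordinal.{u}) (s : Ordinal.{u} → Z) (x : Z),
    (∀ α < κ, s α ∈ A) → TransConverges κ s x → x ∈ A

/-- `Z` is pseudoradial: every radially closed subset is closed. -/
def Pseudoradial (Z : Type u) [TopologicalSpace Z] : Prop :=
  ∀ A : Set Z, RadiallyClosed A → IsClosed A

/-- `C_p(X)`: the continuous real functions on `X`, with the topology of pointwise convergence (the
subspace topology of the product `X → ℝ`). -/
abbrev Cp (X : Type u) [TopologicalSpace X] : Type u := {f : X → ℝ // Continuous f}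

/-- The space `Y` is homeomorphic to a subspace of a regular Hausdorff pseudoradial space. -/
def EmbedsInPseudoradial (Y : Type u) [TopologicalSpace Y] : Prop :=
  ∃ (Z : Type u) (_ : TopologicalSpace Z), T3Space Z ∧ Pseudoradial Z ∧ ∃ e : Y → Z, IsEmbedding e

/-- `X` maps continuously onto `[0,1]`. -/
def MapsOntoInterval (X : Type u) [TopologicalSpace X] : Prop :=
  ∃ q : X → Set.Icc (0 : ℝ) 1, Continuous q ∧ Function.Surjective q

/-- Every nonempty subset `S` has a point that is isolated in `S`. -/
def Scattered (K : Type u) [TopologicalSpace K] : Prop :=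
  ∀ S : Set K, S.Nonempty → ∃ x ∈ S, ∃ U : Set K, IsOpen U ∧ U ∩ S = {x}

/-- `X` is K-analytic: it is the union of the values of an upper semicontinuous compact-valued map
on the Baire space. -/
def KAnalytic (X : Type u) [TopologicalSpace X] : Prop :=
  ∃ F : (ℕ → ℕ) → Set X, (∀ a, IsCompact (F a)) ∧
    (∀ a, ∀ U : Set X, IsOpen U → F a ⊆ U → ∀ᶠ b in 𝓝 a, F b ⊆ U) ∧ ⋃ a, F a = univ

theorem result :
    -- K-analytic spaces
    (∀ (X : Type u) [TopologicalSpace X] [T3Space X], KAnalytic X →
      [EmbedsInPseudoradial (Cp X), FrechetUrysohnSpace (Cp X), ¬ MapsOntoInterval X,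
        ∀ f : X → ℝ, Continuous f → (range f).Countable,
        ∀ C : Set X, IsCompact C → Scattered C].TFAE) ∧
    -- spaces with Lindelöf finite powers and analytic metrizable images
    (∀ (X : Type u) [TopologicalSpace X] [T3Space X], (∀ n : ℕ, LindelofSpace (Fin n → X)) →
      (∀ q : X → (ℕ → ℝ), Continuous q → AnalyticSet (range q)) →
      [EmbedsInPseudoradial (Cp X), FrechetUrysohnSpace (Cp X), ¬ MapsOntoInterval X,
        ∀ f : X → ℝ, Continuous f → (range f).Countable].TFAE) ∧
    -- the question
    (∀ (Z : Type w) [TopologicalSpace Z] [T3Space Z], Pseudoradial Z →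
      ¬ ∃ e : Cp (Set.Icc (0 : ℝ) 1) → Z, IsEmbedding e) := by
  refine ⟨fun X _ _ hX => Pool.Agent.KS6_94.PS.tfaeB X hX,
    fun X _ _ hL hA => Pool.Agent.KS6_94.PS.tfaeA X hL hA, ?_⟩
  rintro Z _ _ hZ ⟨e, he⟩
  exact Pool.Agent.Y365.PR.no_embed (X := Set.Icc (0 : ℝ) 1)
    ⟨id, continuous_id, Function.surjective_id⟩ hZ he

end Pool.Agent.Results.MP_94a925_gt.KAnalyticSpaces
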